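import Pool.Agent.Helper70.BRT.Main

set_option autoImplicit false

open Pool.Agent.Helper70.BRTStmt

namespace Pool.Agent.Results.MP_9e1158_lc.BRTConservative

universe u

/-- Every model of `RCA₀ + BRT²₂` satisfies `BΣ⁰₂`, and every `Π¹₁` formula that is true in all
models of `RCA₀ + BRT²₂` is true in all models of `RCA₀ + BΣ⁰₂`. -/
theorem result :
    (∀ (M : Type u) [Zero M] [One M] [Add M] [Mul M] [LT M] (𝒮 : Set (Set M)),
      IsRCA0 M 𝒮 → BRT M 𝒮 → BSigma02 M 𝒮) ∧
    ∀ φ : Form, IsPi11 φ → ProvBRT.{u} φ → ProvBSigma02.{u} φ :=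
  Pool.Agent.Helper70.BRT.final

end Pool.Agent.Results.MP_9e1158_lc.BRTConservative
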